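import Pool.Agent.K7.H67.VDC.Floor

/-!
# Integer parts of smooth functions in residue classes (helper67)
-/

set_option autoImplicit false

namespace Pool.Agent.K7.H67.VDC

open Finset
open Pool.Agent.H807R2.Dav (ee ee_eq)
open Pool.Agent.K7.H67.CUB (EquiD)

lemma equi_mono {ι : Type} {T : Finset ι} {t : ι → ℕ} {X X' : ℕ} (h : EquiD T t X') (hX : X ≤ X') : EquiD T t X := by
  intro q hq1 hqX r hr
  refine (h q hq1 (hqX.trans hX) r hr).trans ?_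
  have h1 : (1 : ℝ) ≤ X := by exact_mod_cast hq1.trans hqX
  apply div_le_div_of_nonneg_left (Nat.cast_nonneg _) (by linarith)
  exact_mod_cast hX

/-- `F 0` is smooth of the kind used, on `[N, 3 N]`. -/
def Smo (k : ℕ) (A τ : ℝ) (N : ℕ) (F : ℕ → ℝ → ℝ) : Prop :=
  (∀ r < k + 2, ∀ x : ℝ, 0 < x → HasDerivAt (F r) (F (r + 1) x) x) ∧
  ∃ lam : ℝ, (N : ℝ) ^ (-1 + τ) ≤ lam ∧ lam ≤ (N : ℝ) ^ (-τ) ∧
    ∀ y : ℝ, N ≤ y → y ≤ 3 * N → 0 ≤ F 0 y ∧ lam ≤ F (k + 1) y ∧ F (k + 1) y ≤ A * lam ∧ F (k + 2) y ≤ 0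

theorem smooth_equi (k : ℕ) (A τ : ℝ) (hA : 1 ≤ A) (hτ : 0 < τ) : ∃ η : ℝ, 0 < η ∧ ∃ N₀ : ℕ, ∀ N : ℕ, N₀ ≤ N →
    ∀ (F : ℕ → ℝ → ℝ), Smo k A τ N F → ∀ L : ℕ, (N : ℝ) ^ (1 - η) ≤ L → L ≤ N →
    ∀ X : ℕ, (X : ℝ) ≤ (N : ℝ) ^ η → EquiD (Ico N (N + L)) (fun n => ⌊F 0 (n : ℝ)⌋₊) X := by
  obtain ⟨γ, hγ, N₁, h⟩ := smooth_sum k A τ hA hτ
  obtain ⟨η, hη⟩ : ∃ η : ℝ, η = γ / 12 := ⟨_, rfl⟩
  have hη0 : 0 < η := by rw [hη]; positivity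
  obtain ⟨N₂, hN₂⟩ : ∃ N₂ : ℕ, ∀ N : ℕ, N₂ ≤ N → (32 : ℝ) ≤ (N : ℝ) ^ η := by
    have h1 : Filter.Tendsto (fun x : ℝ => x ^ η) Filter.atTop Filter.atTop := tendsto_rpow_atTop hη0
    exact Filter.eventually_atTop.1 ((h1.comp tendsto_natCast_atTop_atTop).eventually (Filter.eventually_ge_atTop _))
  refine ⟨η, hη0, N₁ + N₂ + 1, fun N hN F hF L hL1 hL2 X hX => ?_⟩
  obtain ⟨hF1, lam, hl1, hl2, hF2⟩ := hF
  have hN1 : (1 : ℝ) ≤ N := by exact_mod_cast (by omega : 1 ≤ N)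
  have hN0 : (0 : ℝ) < N := by linarith
  have hbig := hN₂ N (by omega)
  apply equi_mono (X' := max X 16) _ (le_max_left _ _)
  obtain ⟨X', hX'⟩ : ∃ X', X' = max X 16 := ⟨_, rfl⟩
  rw [← hX']
  have hX16 : 16 ≤ X' := by rw [hX']; exact le_max_right _ _
  have hX'N : (X' : ℝ) ≤ (N : ℝ) ^ η := by
    rw [hX']
    push_cast
    exact max_le hX (by linarith)
  have hX'0 : (0 : ℝ) < X' := by exact_mod_cast (by omega : 0 < X')
  have hX'1 : (1 : ℝ) ≤ X' := by exact_mod_cast (by omega : 1 ≤ X')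
  apply equi_floor
  · intro n hn
    rw [mem_Ico] at hn
    refine (hF2 n (by exact_mod_cast hn.1) ?_).1
    have : n ≤ 3 * N := by omega
    exact_mod_cast this
  · exact hX16
  · intro q hq1 hqX m hm1 hmX
    have hq0 : (0 : ℝ) < q := by exact_mod_cast hq1
    have hq1r : (1 : ℝ) ≤ q := by exact_mod_cast hq1
    have hqXr : (q : ℝ) ≤ X' := by exact_mod_cast hqX
    have hm1r : (1 : ℝ) ≤ m := by exact_mod_cast hm1
    have hmXr : (m : ℝ) ≤ (X' : ℝ) ^ 9 := by exact_mod_cast hmX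
    have hpow : ∀ j : ℕ, (X' : ℝ) ^ j ≤ (N : ℝ) ^ (η * j) := by
      intro j
      calc (X' : ℝ) ^ j ≤ ((N : ℝ) ^ η) ^ j := pow_le_pow_left₀ hX'0.le hX'N j
        _ = (N : ℝ) ^ (η * j) := by rw [← Real.rpow_natCast, ← Real.rpow_mul hN0.le]
    have h1 := h N (by omega) F lam hF1 hl1 hl2 (fun y hy1 hy2 => ⟨(hF2 y hy1 hy2).2.1, (hF2 y hy1 hy2).2.2.1⟩)
      (fun y hy1 hy2 => (hF2 y hy1 hy2).2.2.2) ((m : ℝ) / q) (by
        rw [Real.rpow_neg hN0.le]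
        have e1 : (N : ℝ) ^ η ≤ (N : ℝ) ^ γ := Real.rpow_le_rpow_of_exponent_le hN1 (by rw [hη]; linarith)
        calc ((N : ℝ) ^ γ)⁻¹ ≤ ((q : ℝ))⁻¹ := by
              apply inv_anti₀ hq0
              exact (hqXr.trans hX'N).trans e1
          _ = 1 / q := by rw [one_div]
          _ ≤ m / q := by gcongr) (by
        calc (m : ℝ) / q ≤ m := div_le_self (by linarith) hq1r
          _ ≤ (X' : ℝ) ^ 9 := hmXr
          _ ≤ (N : ℝ) ^ (η * (9 : ℕ)) := hpow 9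
          _ ≤ (N : ℝ) ^ γ := Real.rpow_le_rpow_of_exponent_le hN1 (by rw [hη]; push_cast; linarith)) L hL2
    have h2 : ∑ i ∈ Ico N (N + L), ee ((m : ℝ) * (F 0 (i : ℝ) / q)) =
        ∑ n ∈ range L, Pool.Agent.H469R2.NK.e ((m : ℝ) / q * F 0 ((N + n : ℕ) : ℝ)) := by
      rw [sum_Ico_eq_sum_range, Nat.add_sub_cancel_left]
      refine sum_congr rfl fun n _ => ?_
      have e1 : ∀ x : ℝ, ee x = Pool.Agent.H469R2.NK.e x := by
        intro x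
        rw [ee_eq]
        rfl
      rw [e1]
      congr 1
      push_cast
      ring
    rw [h2]
    refine h1.trans ?_
    rw [Nat.card_Ico, Nat.add_sub_cancel_left]
    have h3 : (N : ℝ) * (N : ℝ) ^ (-γ) ≤ L * (N : ℝ) ^ (-(11 * η)) := by
      calc (N : ℝ) * (N : ℝ) ^ (-γ) = (N : ℝ) ^ (1 - η) * (N : ℝ) ^ (-(11 * η)) := by
            rw [← Real.rpow_add hN0]
            nth_rewrite 1 [← Real.rpow_one (N : ℝ)]
            rw [← Real.rpow_add hN0]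
            congr 1
            rw [hη]
            ring
        _ ≤ _ := by gcongr
    refine h3.trans ?_
    apply mul_le_mul_of_nonneg_left _ (Nat.cast_nonneg _)
    rw [Real.rpow_neg hN0.le, ← one_div]
    apply one_div_le_one_div_of_le (by positivity)
    have h4 := hpow 11
    have h5 : η * ((11 : ℕ) : ℝ) = 11 * η := by push_cast; ring
    rwa [h5] at h4

/-- `α x ^ κ + β` and its derivatives -/
noncomputable def PS (α κ β : ℝ) (r : ℕ) (x : ℝ) : ℝ := α * (∏ i ∈ range r, (κ - i)) * x ^ (κ - r) + if r = 0 then β else 0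

lemma PS_zero (α κ β : ℝ) (x : ℝ) : PS α κ β 0 x = α * x ^ κ + β := by
  unfold PS
  simp

lemma PS_deriv (α κ β : ℝ) (r : ℕ) {x : ℝ} (hx : 0 < x) : HasDerivAt (PS α κ β r) (PS α κ β (r + 1) x) x := by
  unfold PS
  have h1 := ((Real.hasDerivAt_rpow_const (p := κ - r) (Or.inl hx.ne')).const_mul (α * (∏ i ∈ range r, (κ - i)))).add_const
    (if r = 0 then β else 0)
  refine h1.congr_deriv ?_
  rw [if_neg (Nat.succ_ne_zero r), prod_range_succ, add_zero]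
  have h2 : κ - ((r + 1 : ℕ) : ℝ) = κ - r - 1 := by push_cast; ring
  rw [h2]
  ring

lemma PS_smo (k : ℕ) (κ : ℝ) (hκ1 : (k : ℝ) < κ) (hκ2 : κ < k + 1) : ∃ τ : ℝ, 0 < τ ∧ ∃ N₀ : ℕ, ∀ N : ℕ, N₀ ≤ N →
    ∀ α β : ℝ, (N : ℝ) ^ (-τ) ≤ α → α ≤ (N : ℝ) ^ τ → 0 ≤ β → Smo k 3 τ N (PS α κ β) := by
  obtain ⟨θ, hθ⟩ : ∃ θ : ℝ, θ = κ - k := ⟨_, rfl⟩
  have hθ0 : 0 < θ := by rw [hθ]; linarith
  have hθ1 : θ < 1 := by rw [hθ]; linarith
  obtain ⟨τ, hτ⟩ : ∃ τ : ℝ, τ = min θ (1 - θ) / 3 := ⟨_, rfl⟩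
  have hmin : 0 < min θ (1 - θ) := lt_min hθ0 (by linarith)
  have hτ0 : 0 < τ := by rw [hτ]; positivity
  have hτ1 : 3 * τ ≤ θ := by rw [hτ]; linarith [min_le_left θ (1 - θ)]
  have hτ2 : 3 * τ ≤ 1 - θ := by rw [hτ]; linarith [min_le_right θ (1 - θ)]
  obtain ⟨P, hP⟩ : ∃ P : ℝ, P = ∏ i ∈ range (k + 1), (κ - i) := ⟨_, rfl⟩
  have hP0 : 0 < P := by
    rw [hP]
    apply prod_pos
    intro i hi
    rw [mem_range] at hi
    have : (i : ℝ) ≤ k := by exact_mod_cast (by omega : i ≤ k)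
    linarith
  obtain ⟨N₂, hN₂⟩ : ∃ N₂ : ℕ, ∀ N : ℕ, N₂ ≤ N → (P + 3 / P : ℝ) ≤ (N : ℝ) ^ τ := by
    have h1 : Filter.Tendsto (fun x : ℝ => x ^ τ) Filter.atTop Filter.atTop := tendsto_rpow_atTop hτ0
    exact Filter.eventually_atTop.1 ((h1.comp tendsto_natCast_atTop_atTop).eventually (Filter.eventually_ge_atTop _))
  refine ⟨τ, hτ0, N₂ + 1, fun N hN α β hα1 hα2 hβ => ⟨fun r _ x hx => PS_deriv α κ β r hx, ?_⟩⟩
  have hN1 : (1 : ℝ) ≤ N := by exact_mod_cast (by omega : 1 ≤ N)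
  have hN0 : (0 : ℝ) < N := by linarith
  have hbig := hN₂ N (by omega)
  have hα0 : 0 < α := lt_of_lt_of_le (by positivity) hα1
  have hP3 : 0 < 3 / P := by positivity
  have hP1 : P ≤ (N : ℝ) ^ τ := by linarith
  have hP2 : (N : ℝ) ^ (-τ) ≤ P / 3 := by
    rw [Real.rpow_neg hN0.le, inv_le_comm₀ (by positivity) (by positivity), inv_div]
    linarith
  have hNθ : 0 < (N : ℝ) ^ (θ - 1) := by positivity
  have h3θ1 : (3 : ℝ) ^ (θ - 1) ≤ 1 := Real.rpow_le_one_of_one_le_of_nonpos (by norm_num) (by linarith)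
  have h3θ2 : (1 : ℝ) / 3 ≤ (3 : ℝ) ^ (θ - 1) := by
    calc (1 : ℝ) / 3 = (3 : ℝ) ^ (-1 : ℝ) := by rw [Real.rpow_neg_one]; norm_num
      _ ≤ _ := Real.rpow_le_rpow_of_exponent_le (by norm_num) (by linarith)
  have hk1 : ∀ y : ℝ, PS α κ β (k + 1) y = α * P * y ^ (θ - 1) := by
    intro y
    unfold PS
    rw [if_neg (Nat.succ_ne_zero k), add_zero, ← hP]
    congr 2
    rw [hθ]
    push_cast
    ring
  have hk2 : ∀ y : ℝ, PS α κ β (k + 2) y = α * (P * (θ - 1)) * y ^ (θ - 2) := by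
    intro y
    unfold PS
    rw [if_neg (Nat.succ_ne_zero (k + 1)), add_zero, prod_range_succ, ← hP]
    congr 2
    · rw [hθ]
      push_cast
      ring
    · rw [hθ]
      push_cast
      ring
  have hmul : (3 * (N : ℝ)) ^ (θ - 1) = (3 : ℝ) ^ (θ - 1) * (N : ℝ) ^ (θ - 1) := Real.mul_rpow (by norm_num) hN0.le
  refine ⟨α * P * (3 * N : ℝ) ^ (θ - 1), ?_, ?_, ?_⟩
  · -- lower bound
    rw [hmul]
    calc (N : ℝ) ^ (-1 + τ) ≤ (N : ℝ) ^ (-τ) * (N : ℝ) ^ (-τ) * (N : ℝ) ^ (θ - 1) := by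
          rw [← Real.rpow_add hN0, ← Real.rpow_add hN0]
          exact Real.rpow_le_rpow_of_exponent_le hN1 (by linarith)
      _ ≤ α * (P / 3) * (N : ℝ) ^ (θ - 1) := by gcongr
      _ = α * P * ((1 / 3) * (N : ℝ) ^ (θ - 1)) := by ring
      _ ≤ α * P * ((3 : ℝ) ^ (θ - 1) * (N : ℝ) ^ (θ - 1)) := by gcongr
  · rw [hmul]
    calc α * P * ((3 : ℝ) ^ (θ - 1) * (N : ℝ) ^ (θ - 1)) ≤ (N : ℝ) ^ τ * (N : ℝ) ^ τ * (1 * (N : ℝ) ^ (θ - 1)) := by gcongr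
      _ = (N : ℝ) ^ (τ + τ + (θ - 1)) := by
          rw [one_mul, ← Real.rpow_add hN0, ← Real.rpow_add hN0]
      _ ≤ _ := Real.rpow_le_rpow_of_exponent_le hN1 (by linarith)
  · intro y hy1 hy2
    have hy0 : 0 < y := by linarith
    refine ⟨?_, ?_, ?_, ?_⟩
    · rw [PS_zero]
      positivity
    · rw [hk1]
      apply mul_le_mul_of_nonneg_left _ (by positivity)
      exact Real.rpow_le_rpow_of_nonpos hy0 hy2 (by linarith)
    · rw [hk1, hmul]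
      have h1 : y ^ (θ - 1) ≤ (N : ℝ) ^ (θ - 1) := Real.rpow_le_rpow_of_nonpos hN0 hy1 (by linarith)
      calc α * P * y ^ (θ - 1) ≤ α * P * (N : ℝ) ^ (θ - 1) := by gcongr
        _ = 3 * (α * P * ((1 / 3) * (N : ℝ) ^ (θ - 1))) := by ring
        _ ≤ 3 * (α * P * ((3 : ℝ) ^ (θ - 1) * (N : ℝ) ^ (θ - 1))) := by gcongr
    · rw [hk2]
      have h1 : 0 < y ^ (θ - 2) := by positivity
      have h2 : P * (θ - 1) ≤ 0 := mul_nonpos_of_nonneg_of_nonpos hP0.le (by linarith)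
      have h3 : α * (P * (θ - 1)) ≤ 0 := mul_nonpos_of_nonneg_of_nonpos hα0.le h2
      exact mul_nonpos_of_nonpos_of_nonneg h3 h1.le

/-- Piatetski–Shapiro sequences in residue classes -/
theorem ps_equi (κ : ℝ) (hκ : 0 < κ) (hκi : ∀ n : ℕ, κ ≠ n) : ∃ η : ℝ, 0 < η ∧ ∃ N₀ : ℕ, ∀ N : ℕ, N₀ ≤ N →
    ∀ α β : ℝ, (N : ℝ) ^ (-η) ≤ α → α ≤ (N : ℝ) ^ η → 0 ≤ β → ∀ L : ℕ, (N : ℝ) ^ (1 - η) ≤ L → L ≤ N →
    ∀ X : ℕ, (X : ℝ) ≤ (N : ℝ) ^ η → EquiD (Ico N (N + L)) (fun n => ⌊α * (n : ℝ) ^ κ + β⌋₊) X := by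
  obtain ⟨τ, hτ, N₁, h1⟩ := PS_smo ⌊κ⌋₊ κ (lt_of_le_of_ne (Nat.floor_le hκ.le) (fun h => hκi _ h.symm)) (Nat.lt_floor_add_one κ)
  obtain ⟨η, hη, N₂, h2⟩ := smooth_equi ⌊κ⌋₊ 3 τ (by norm_num) hτ
  refine ⟨min η τ, lt_min hη hτ, N₁ + N₂ + 1, fun N hN α β hα1 hα2 hβ L hL1 hL2 X hX => ?_⟩
  have hN1 : (1 : ℝ) ≤ N := by exact_mod_cast (by omega : 1 ≤ N)
  have e1 : ∀ a b : ℝ, a ≤ b → (N : ℝ) ^ a ≤ (N : ℝ) ^ b := fun a b hab => Real.rpow_le_rpow_of_exponent_le hN1 hab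
  have h3 := h1 N (by omega) α β ((e1 _ _ (neg_le_neg (min_le_right η τ))).trans hα1) (hα2.trans (e1 _ _ (min_le_right η τ))) hβ
  have h4 := h2 N (by omega) (PS α κ β) h3 L ((e1 _ _ (by linarith [min_le_left η τ])).trans hL1) hL2 X (hX.trans (e1 _ _ (min_le_left η τ)))
  simpa only [PS_zero] using h4

end Pool.Agent.K7.H67.VDC
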