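import Pool.Agent.H469R2.NK.ExpSum

/-!
# The method of van der Corput for general smooth functions (helper67)

`k` differencing steps and the inequality of Kusmin and Landau, for a function whose derivative of order `k + 1` is small,
positive and nonincreasing.
-/

set_option autoImplicit false

namespace Pool.Agent.K7.H67.VDC

open Finset
open Pool.Agent.H469R2.NK

/-- iterated differences of the functions `F r` -/
noncomputable def DF (F : ℕ → ℝ → ℝ) : List ℕ → ℕ → ℝ → ℝ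
  | [], r, x => F r x
  | l :: ls, r, x => DF F ls r (x + l) - DF F ls r x

lemma DF_deriv {F : ℕ → ℝ → ℝ} {R : ℕ} (hF : ∀ r < R, ∀ x : ℝ, 0 < x → HasDerivAt (F r) (F (r + 1) x) x) (ls : List ℕ) (r : ℕ)
    (hr : r < R) {x : ℝ} (hx : 0 < x) : HasDerivAt (DF F ls r) (DF F ls (r + 1) x) x := by
  induction ls generalizing x with
  | nil => exact hF r hr x hx
  | cons l ls ih =>
    have h1 : HasDerivAt (fun y => DF F ls r (y + l)) (DF F ls (r + 1) (x + l)) x := by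
      have := (ih (x := x + l) (by positivity))
      exact this.comp_add_const x (l : ℝ)
    exact h1.sub (ih hx)

lemma DF_neg (F : ℕ → ℝ → ℝ) (ls : List ℕ) (r : ℕ) (x : ℝ) : DF (fun r x => -F r x) ls r x = -DF F ls r x := by
  induction ls generalizing x with
  | nil => rfl
  | cons l ls ih =>
    simp only [DF, ih]
    ring

lemma DF_le {F : ℕ → ℝ → ℝ} {R : ℕ} (hF : ∀ r < R, ∀ x : ℝ, 0 < x → HasDerivAt (F r) (F (r + 1) x) x) {N M : ℝ} (hN : 0 < N)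
    (ls : List ℕ) (r : ℕ) (hr : ls.length + r ≤ R) (hb : ∀ y, N ≤ y → y ≤ 3 * N → F (ls.length + r) y ≤ M)
    {x : ℝ} (hx : N ≤ x) (hx2 : x + (ls.sum : ℕ) ≤ 3 * N) : DF F ls r x ≤ M * (ls.prod : ℕ) := by
  induction ls generalizing r x with
  | nil =>
    simp only [List.length_nil, zero_add, List.prod_nil, Nat.cast_one, mul_one, DF] at *
    exact hb x hx (by simpa using hx2)
  | cons l ls ih =>
    simp only [List.length_cons, List.prod_cons, List.sum_cons] at *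
    rw [Nat.cast_add] at hx2
    rw [Nat.cast_mul]
    rcases Nat.eq_zero_or_pos l with rfl | hl
    · simp [DF]
    have hl' : (0 : ℝ) < l := by exact_mod_cast hl
    obtain ⟨ξ, hξ, hξ2⟩ := exists_hasDerivAt_eq_slope (DF F ls r) (DF F ls (r + 1)) (a := x) (b := x + l)
      (by linarith) (fun y hy => (DF_deriv hF ls r (by omega) (by linarith [hy.1])).continuousAt.continuousWithinAt)
      (fun y hy => DF_deriv hF ls r (by omega) (by linarith [hy.1]))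
    have h1 : DF F (l :: ls) r x = l * DF F ls (r + 1) ξ := by
      simp only [DF]
      rw [hξ2, add_sub_cancel_left]; field_simp
    have h2 := ih (r := r + 1) (x := ξ) (by omega) (by
      intro y h3 h4
      have h5 := hb y h3 h4
      rw [show ls.length + (r + 1) = ls.length + 1 + r by ring]
      exact h5) (by linarith [hξ.1]) (by linarith [hξ.2])
    rw [h1]
    calc (l : ℝ) * DF F ls (r + 1) ξ ≤ l * (M * (ls.prod : ℕ)) := mul_le_mul_of_nonneg_left h2 hl'.le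
      _ = _ := by ring

lemma DF_ge {F : ℕ → ℝ → ℝ} {R : ℕ} (hF : ∀ r < R, ∀ x : ℝ, 0 < x → HasDerivAt (F r) (F (r + 1) x) x) {N m : ℝ} (hN : 0 < N)
    (ls : List ℕ) (r : ℕ) (hr : ls.length + r ≤ R) (hb : ∀ y, N ≤ y → y ≤ 3 * N → m ≤ F (ls.length + r) y)
    {x : ℝ} (hx : N ≤ x) (hx2 : x + (ls.sum : ℕ) ≤ 3 * N) : m * (ls.prod : ℕ) ≤ DF F ls r x := by
  have h := DF_le (F := fun r x => -F r x) (R := R) (M := -m) (fun r hr x hx => (hF r hr x hx).neg) hN ls r hr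
    (fun y h1 h2 => neg_le_neg (hb y h1 h2)) hx hx2
  rw [DF_neg] at h
  linarith

/-- the differenced sum -/
noncomputable def SF (F : ℕ → ℝ → ℝ) (a L : ℕ) (ls : List ℕ) : ℂ :=
  ∑ n ∈ range (L - ls.sum), e (DF F ls 0 ((a + n : ℕ) : ℝ))

lemma SF_sq (F : ℕ → ℝ → ℝ) (a L H : ℕ) (ls : List ℕ) :
    (H : ℝ) * ‖SF F a L ls‖ ^ 2 ≤ (L + H) * (L + 2 * ∑ l ∈ Ico 1 H, ‖SF F a L (l :: ls)‖) := by
  have h := vdcH (fun n => e (DF F ls 0 ((a + n : ℕ) : ℝ))) (fun n => (norm_e _).le) (L - ls.sum) H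
  have h1 : ∀ l, ∑ n ∈ range (L - ls.sum - l), e (DF F ls 0 ((a + (n + l) : ℕ) : ℝ)) *
      (starRingEnd ℂ) (e (DF F ls 0 ((a + n : ℕ) : ℝ))) = SF F a L (l :: ls) := by
    intro l
    unfold SF
    rw [List.sum_cons, show L - (l + ls.sum) = L - ls.sum - l by omega]
    refine sum_congr rfl fun n _ => ?_
    rw [conj_e, ← e_add]
    congr 1
    simp only [DF]
    push_cast
    rw [show (a : ℝ) + n + l = a + (n + l) by ring]
    ring
  simp only [h1] at h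
  refine h.trans ?_
  have h2 : ((L - ls.sum : ℕ) : ℝ) ≤ L := by exact_mod_cast Nat.sub_le _ _
  gcongr

/-- last step: Kusmin–Landau -/
lemma SF_le {F : ℕ → ℝ → ℝ} {q : ℕ} (hF : ∀ r < q + 2, ∀ x : ℝ, 0 < x → HasDerivAt (F r) (F (r + 1) x) x) {m M : ℝ} (hm : 0 < m)
    (N a L : ℕ) (hN : 1 ≤ N) (ha : N ≤ a) (haL : a + L ≤ 3 * N)
    (hb : ∀ y : ℝ, N ≤ y → y ≤ 3 * N → m ≤ F (q + 1) y ∧ F (q + 1) y ≤ M)
    (hneg : ∀ y : ℝ, N ≤ y → y ≤ 3 * N → F (q + 2) y ≤ 0)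
    (ls : List ℕ) (hlen : ls.length = q) (hls : 0 < ls.prod) (hup : 2 * (M * (ls.prod : ℕ)) ≤ 1) :
    ‖SF F a L ls‖ ≤ 2 / (m * (ls.prod : ℕ)) := by
  have hN' : (0 : ℝ) < N := by exact_mod_cast hN
  have hP : (0 : ℝ) < (ls.prod : ℕ) := by exact_mod_cast hls
  rcases Nat.lt_or_ge L (ls.sum + 1) with hL | hL
  · unfold SF
    rw [show L - ls.sum = 0 by omega]
    simp only [range_zero, sum_empty, norm_zero]
    positivity
  obtain ⟨θ, hθ⟩ : ∃ θ : ℝ, θ = m * (ls.prod : ℕ) := ⟨_, rfl⟩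
  have hθ0 : 0 < θ := by rw [hθ]; positivity
  have hx1 : ∀ n < L - ls.sum, θ ≤ DF F (1 :: ls) 0 ((a + n : ℕ) : ℝ) ∧ DF F (1 :: ls) 0 ((a + n : ℕ) : ℝ) ≤ 1 / 2 := by
    intro n hn
    have hxN : (N : ℝ) ≤ ((a + n : ℕ) : ℝ) := by exact_mod_cast (by omega : N ≤ a + n)
    have hs : ((a + n : ℕ) : ℝ) + ((1 :: ls).sum : ℕ) ≤ 3 * N := by rw [List.sum_cons]; norm_cast; omega
    have hr : (1 :: ls).length + 0 ≤ q + 2 := by simp only [List.length_cons]; omega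
    have h1 := DF_ge (m := m) hF hN' (1 :: ls) 0 hr (by
      intro y h1 h2
      rw [List.length_cons, hlen, add_zero]
      exact (hb y h1 h2).1) hxN hs
    have h2 := DF_le (M := M) hF hN' (1 :: ls) 0 hr (by
      intro y h1 h2
      rw [List.length_cons, hlen, add_zero]
      exact (hb y h1 h2).2) hxN hs
    simp only [List.prod_cons, one_mul] at h1 h2
    rw [hθ]
    exact ⟨h1, h2.trans (by linarith)⟩
  have hθ2 : θ ≤ 1 / 2 := (hx1 0 (by omega)).1.trans (hx1 0 (by omega)).2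
  have hdiff : ∀ n : ℕ, DF F ls 0 ((a + (n + 1) : ℕ) : ℝ) - DF F ls 0 ((a + n : ℕ) : ℝ) = DF F (1 :: ls) 0 ((a + n : ℕ) : ℝ) := by
    intro n
    simp only [DF]
    push_cast
    rw [show (a : ℝ) + n + 1 = a + (n + 1) by ring]
  have hdiff2 : ∀ n, n + 1 < L - ls.sum → DF F (1 :: ls) 0 ((a + (n + 1) : ℕ) : ℝ) ≤ DF F (1 :: ls) 0 ((a + n : ℕ) : ℝ) := by
    intro n hn
    have hxN : (N : ℝ) ≤ ((a + n : ℕ) : ℝ) := by exact_mod_cast (by omega : N ≤ a + n)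
    have h := DF_le (M := 0) hF hN' (1 :: 1 :: ls) 0 (by simp only [List.length_cons]; omega) (by
      intro y h1 h2
      rw [List.length_cons, List.length_cons, hlen, add_zero]
      exact hneg y h1 h2) hxN (by rw [List.sum_cons, List.sum_cons]; norm_cast; omega)
    have h2 : DF F (1 :: 1 :: ls) 0 ((a + n : ℕ) : ℝ) =
        DF F (1 :: ls) 0 ((a + (n + 1) : ℕ) : ℝ) - DF F (1 :: ls) 0 ((a + n : ℕ) : ℝ) := by
      conv_lhs => rw [DF]
      push_cast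
      rw [show (a : ℝ) + n + 1 = a + (n + 1) by ring]
    rw [h2, zero_mul] at h
    linarith
  have hKL := kusmin_landau_anti (fun n => DF F ls 0 ((a + n : ℕ) : ℝ)) (L - ls.sum) hθ0
    (fun n hn => by rw [hdiff]; exact (hx1 n hn).1)
    (fun n hn => by rw [hdiff]; linarith [(hx1 n hn).2])
    (fun n hn => by
      rw [hdiff, hdiff]
      exact hdiff2 n hn)
  refine hKL.trans (le_of_eq ?_)
  rw [hθ]

lemma exp_boundF {F : ℕ → ℝ → ℝ} {q : ℕ} (hF : ∀ r < q + 2, ∀ x : ℝ, 0 < x → HasDerivAt (F r) (F (r + 1) x) x) {m M : ℝ} (hm : 0 < m)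
    (N a L H : ℕ) (hN : 1 ≤ N) (ha : N ≤ a) (hL : L ≤ N) (haL : a + L ≤ 3 * N) (hH : 1 ≤ H) (hHN : H ≤ N)
    (hb : ∀ y : ℝ, N ≤ y → y ≤ 3 * N → m ≤ F (q + 1) y ∧ F (q + 1) y ≤ M)
    (hneg : ∀ y : ℝ, N ≤ y → y ≤ 3 * N → F (q + 2) y ≤ 0)
    (hup : 2 * (M * (H : ℝ) ^ q) ≤ 1) :
    (‖SF F a L []‖ / N) ^ (2 ^ q) ≤ Cq q * (1 / H + (2 / (m * N)) * ((∑ l ∈ Ico 1 H, (1 : ℝ) / l) / H) ^ q) := by
  have hN' : (1 : ℝ) ≤ N := by exact_mod_cast hN
  have hH' : (1 : ℝ) ≤ H := by exact_mod_cast hH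
  have hL' : (L : ℝ) ≤ N := by exact_mod_cast hL
  have hHN' : (H : ℝ) ≤ N := by exact_mod_cast hHN
  have hM0 : 0 ≤ M := by
    have h1 := hb N le_rfl (by linarith)
    linarith
  have hstep : ∀ ls : List ℕ, (‖SF F a L ls‖ / N) ^ 2 ≤
      2 / H + 4 * ((∑ l ∈ Ico 1 H, ‖SF F a L (l :: ls)‖ / N) / H) := by
    intro ls
    have h := SF_sq F a L H ls
    set Sg := ∑ l ∈ Ico 1 H, ‖SF F a L (l :: ls)‖ with hSg
    have hSg0 : 0 ≤ Sg := sum_nonneg fun _ _ => norm_nonneg _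
    have h2 : (H : ℝ) * ‖SF F a L ls‖ ^ 2 ≤ (2 * N) * (N + 2 * Sg) := by
      refine h.trans ?_
      have : (L : ℝ) + H ≤ 2 * N := by linarith
      gcongr
    rw [← sum_div, ← hSg]
    have e1 : 2 / (H : ℝ) + 4 * (Sg / N / H) = ((2 * N) * (N + 2 * Sg)) / (H * N ^ 2) := by
      field_simp
      ring
    rw [e1, div_pow, div_le_div_iff₀ (by positivity) (by positivity)]
    calc ‖SF F a L ls‖ ^ 2 * (H * N ^ 2) = ((H : ℝ) * ‖SF F a L ls‖ ^ 2) * N ^ 2 := by ring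
      _ ≤ _ := by gcongr
  have hit := iterate hH (fun ls => ‖SF F a L ls‖ / N) (fun ls => by positivity) hstep q []
  refine hit.trans ?_
  have hC := Cq_pos q
  gcongr
  have := Av_le (H := H) (T := fun ls => ‖SF F a L ls‖ / N) (κ := 2 / (m * N)) q (by
      intro ls hlen hent
      have hpos : 0 < ls.prod := List.prod_pos fun l hl => (hent l hl).1
      have hle : ls.prod ≤ H ^ q := by
        have := List.prod_le_pow_card ls H (fun l hl => (hent l hl).2.le)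
        rwa [hlen] at this
      have hle' : ((ls.prod : ℕ) : ℝ) ≤ (H : ℝ) ^ q := by exact_mod_cast hle
      have h1 := SF_le hF hm N a L hN ha haL hb hneg ls hlen hpos (by
        refine le_trans ?_ hup
        gcongr)
      have hP : (0 : ℝ) < (ls.prod : ℕ) := by exact_mod_cast hpos
      calc ‖SF F a L ls‖ / N ≤ (2 / (m * (ls.prod : ℕ))) / N := by gcongr
        _ = _ := by field_simp) q [] (by simp) (by simp)
  simpa using this

/-- **Exponential sums with a power saving.** -/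
theorem smooth_sum (q : ℕ) (A τ : ℝ) (hA : 1 ≤ A) (hτ : 0 < τ) : ∃ γ : ℝ, 0 < γ ∧ ∃ N₀ : ℕ, ∀ N : ℕ, N₀ ≤ N →
    ∀ (F : ℕ → ℝ → ℝ) (lam : ℝ), (∀ r < q + 2, ∀ x : ℝ, 0 < x → HasDerivAt (F r) (F (r + 1) x) x) →
    (N : ℝ) ^ (-1 + τ) ≤ lam → lam ≤ (N : ℝ) ^ (-τ) →
    (∀ y : ℝ, N ≤ y → y ≤ 3 * N → lam ≤ F (q + 1) y ∧ F (q + 1) y ≤ A * lam) →
    (∀ y : ℝ, N ≤ y → y ≤ 3 * N → F (q + 2) y ≤ 0) →
    ∀ c : ℝ, (N : ℝ) ^ (-γ) ≤ c → c ≤ (N : ℝ) ^ γ → ∀ L : ℕ, L ≤ N →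
      ‖∑ n ∈ range L, e (c * F 0 ((N + n : ℕ) : ℝ))‖ ≤ N * (N : ℝ) ^ (-γ) := by
  obtain ⟨σ, hσ⟩ : ∃ σ : ℝ, σ = min τ 1 / (4 * (q + 1)) := ⟨_, rfl⟩
  have hq1 : (0 : ℝ) < (q : ℝ) + 1 := by positivity
  have hτ1 : 0 < min τ 1 := lt_min hτ one_pos
  have hσ0 : 0 < σ := by rw [hσ]; positivity
  have hσ1 : σ * (q + 1) = min τ 1 / 4 := by rw [hσ]; field_simp
  have hσle : σ ≤ 1 / 4 := by
    rw [hσ, div_le_iff₀ (by positivity)]
    have : (min τ 1) ≤ 1 := min_le_right _ _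
    have : (0 : ℝ) ≤ q := Nat.cast_nonneg _
    nlinarith
  obtain ⟨γ, hγ⟩ : ∃ γ : ℝ, γ = σ / (4 * 2 ^ q) := ⟨_, rfl⟩
  have hγ0 : 0 < γ := by rw [hγ]; positivity
  have hγq : γ * 2 ^ q = σ / 4 := by rw [hγ]; field_simp
  have h2q : (1 : ℝ) ≤ 2 ^ q := one_le_pow₀ (by norm_num)
  have hγσ : γ ≤ σ / 4 := by rw [← hγq]; nlinarith
  have hσq : σ ≤ min τ 1 / 4 := by
    rw [← hσ1]
    have : (0 : ℝ) ≤ q := Nat.cast_nonneg _
    nlinarith
  have hmτ : min τ 1 ≤ τ := min_le_left _ _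
  have hC := Cq_pos q
  have hev : ∀ᶠ N : ℕ in Filter.atTop, (2 : ℝ) ≤ (N : ℝ) ^ (σ / 2) ∧ 2 * A ≤ (N : ℝ) ^ (σ / 2) ∧
      Cq q * 3 ≤ (N : ℝ) ^ (σ / 4) ∧ 1 ≤ N := by
    have h1 : Filter.Tendsto (fun x : ℝ => x ^ (σ / 2)) Filter.atTop Filter.atTop := tendsto_rpow_atTop (by positivity)
    have h2 : Filter.Tendsto (fun x : ℝ => x ^ (σ / 4)) Filter.atTop Filter.atTop := tendsto_rpow_atTop (by positivity)
    filter_upwards [(h1.comp tendsto_natCast_atTop_atTop).eventually (Filter.eventually_ge_atTop _),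
      (h1.comp tendsto_natCast_atTop_atTop).eventually (Filter.eventually_ge_atTop _),
      (h2.comp tendsto_natCast_atTop_atTop).eventually (Filter.eventually_ge_atTop _), Filter.eventually_ge_atTop 1] with N a1 a2 a3 a4
    exact ⟨a1, a2, a3, a4⟩
  obtain ⟨N₀, hN₀⟩ := Filter.eventually_atTop.1 hev
  refine ⟨γ, hγ0, N₀, fun N hN F lam hF hl1 hl2 hb hneg c hc1 hc2 L hL => ?_⟩
  obtain ⟨a1, a2, a3, hN1⟩ := hN₀ N hN
  have hNr : (1 : ℝ) ≤ N := by exact_mod_cast hN1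
  have hNp : (0 : ℝ) < N := by linarith
  have hc0 : 0 < c := lt_of_lt_of_le (by positivity) hc1
  have hlam0 : 0 < lam := lt_of_lt_of_le (by positivity) hl1
  obtain ⟨H, hH⟩ : ∃ H, H = ⌊(N : ℝ) ^ σ⌋₊ := ⟨_, rfl⟩
  have hHle : (H : ℝ) ≤ (N : ℝ) ^ σ := by rw [hH]; exact Nat.floor_le (by positivity)
  have hHge : (N : ℝ) ^ (σ / 2) ≤ H := by
    have h3 : (N : ℝ) ^ σ = (N : ℝ) ^ (σ / 2) * (N : ℝ) ^ (σ / 2) := by
      rw [← Real.rpow_add hNp]; congr 1; ring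
    have h4 : (N : ℝ) ^ σ < H + 1 := by rw [hH]; exact Nat.lt_floor_add_one _
    rw [h3] at h4
    nlinarith
  have hH1 : 1 ≤ H := by
    have : (1 : ℝ) ≤ H := by linarith
    exact_mod_cast this
  have hHN : H ≤ N := by
    have h3 : (H : ℝ) ≤ N := by
      refine hHle.trans ?_
      calc (N : ℝ) ^ σ ≤ (N : ℝ) ^ (1 : ℝ) := Real.rpow_le_rpow_of_exponent_le hNr (by linarith)
        _ = N := Real.rpow_one _
    exact_mod_cast h3
  have hHp : (0 : ℝ) < H := by exact_mod_cast hH1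
  have hHr1 : (1 : ℝ) ≤ H := by exact_mod_cast hH1
  have h := exp_boundF (F := fun r x => c * F r x) (q := q) (m := c * lam) (M := c * (A * lam)) (fun r hr x hx => (hF r hr x hx).const_mul c)
    (by positivity) N N L H hN1 le_rfl hL (by omega) hH1 hHN
    (fun y h1 h2 => ⟨mul_le_mul_of_nonneg_left (hb y h1 h2).1 hc0.le, mul_le_mul_of_nonneg_left (hb y h1 h2).2 hc0.le⟩)
    (fun y h1 h2 => mul_nonpos_of_nonneg_of_nonpos hc0.le (hneg y h1 h2)) (by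
      calc 2 * (c * (A * lam) * (H : ℝ) ^ q) ≤ 2 * ((N : ℝ) ^ γ * (A * (N : ℝ) ^ (-τ)) * ((N : ℝ) ^ σ) ^ q) := by gcongr
        _ = (2 * A) * ((N : ℝ) ^ γ * (N : ℝ) ^ (-τ) * (N : ℝ) ^ (σ * q)) := by
            rw [← Real.rpow_natCast ((N : ℝ) ^ σ) q, ← Real.rpow_mul hNp.le]
            ring
        _ ≤ (N : ℝ) ^ (σ / 2) * ((N : ℝ) ^ γ * (N : ℝ) ^ (-τ) * (N : ℝ) ^ (σ * q)) := by gcongr
        _ = (N : ℝ) ^ (σ / 2 + (γ + -τ + σ * q)) := by
            rw [← Real.rpow_add hNp, ← Real.rpow_add hNp, ← Real.rpow_add hNp]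
        _ ≤ (N : ℝ) ^ (0 : ℝ) := by
            apply Real.rpow_le_rpow_of_exponent_le hNr
            have e1 : σ * q = min τ 1 / 4 - σ := by rw [← hσ1]; ring
            rw [e1]
            linarith
        _ = 1 := Real.rpow_zero _)
  have hsum : ∑ n ∈ range L, e (c * F 0 ((N + n : ℕ) : ℝ)) = SF (fun r x => c * F r x) N L [] := by
    unfold SF
    simp only [List.sum_nil, Nat.sub_zero, DF]
  rw [hsum]
  by_contra hcon
  push Not at hcon
  have h1 : (N : ℝ) ^ (-γ) < ‖SF (fun r x => c * F r x) N L []‖ / N := by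
    rw [lt_div_iff₀ hNp, mul_comm]
    exact hcon
  have h2 : ((N : ℝ) ^ (-γ)) ^ (2 ^ q) < (‖SF (fun r x => c * F r x) N L []‖ / N) ^ (2 ^ q) :=
    pow_lt_pow_left₀ h1 (by positivity) (by positivity)
  have h3 : ((N : ℝ) ^ (-γ)) ^ (2 ^ q) = (N : ℝ) ^ (-(σ / 4)) := by
    rw [← Real.rpow_natCast, ← Real.rpow_mul hNp.le]
    congr 1
    push_cast
    rw [neg_mul, hγq]
  have h4 : (∑ l ∈ Ico 1 H, (1 : ℝ) / l) / H ≤ 1 := by
    rw [div_le_one hHp]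
    calc ∑ l ∈ Ico 1 H, (1 : ℝ) / l ≤ ∑ _l ∈ Ico 1 H, (1 : ℝ) := by
          apply sum_le_sum
          intro l hl
          have : (1 : ℝ) ≤ l := by exact_mod_cast (mem_Ico.1 hl).1
          rw [div_le_one (by linarith)]
          exact this
      _ = ((Ico 1 H).card : ℝ) := by rw [sum_const, nsmul_eq_mul, mul_one]
      _ ≤ H := by rw [Nat.card_Ico]; exact_mod_cast Nat.sub_le _ _
  have h40 : 0 ≤ (∑ l ∈ Ico 1 H, (1 : ℝ) / l) / H := by positivity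
  have h5 : 1 / (H : ℝ) ≤ (N : ℝ) ^ (-(σ / 2)) := by
    rw [Real.rpow_neg hNp.le, ← one_div]
    exact one_div_le_one_div_of_le (by positivity) hHge
  have h6 : 2 / (c * lam * N) ≤ 2 * (N : ℝ) ^ (-(σ / 2)) := by
    rw [div_eq_mul_inv]
    apply mul_le_mul_of_nonneg_left _ (by norm_num)
    rw [Real.rpow_neg hNp.le]
    apply inv_anti₀ (by positivity)
    calc (N : ℝ) ^ (σ / 2) ≤ (N : ℝ) ^ (-γ + (-1 + τ) + 1) := by
          apply Real.rpow_le_rpow_of_exponent_le hNr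
          linarith
      _ = (N : ℝ) ^ (-γ) * (N : ℝ) ^ (-1 + τ) * N := by
          rw [Real.rpow_add hNp, Real.rpow_add hNp, Real.rpow_one]
      _ ≤ c * lam * N := by gcongr
  have h7 : (‖SF (fun r x => c * F r x) N L []‖ / N) ^ (2 ^ q) ≤ (N : ℝ) ^ (-(σ / 4)) := by
    refine h.trans ?_
    calc Cq q * (1 / H + 2 / (c * lam * N) * ((∑ l ∈ Ico 1 H, (1 : ℝ) / l) / H) ^ q) ≤
          Cq q * ((N : ℝ) ^ (-(σ / 2)) + 2 * (N : ℝ) ^ (-(σ / 2)) * 1) := by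
          have := pow_le_one₀ h40 h4 (n := q)
          gcongr
      _ = Cq q * 3 * (N : ℝ) ^ (-(σ / 2)) := by ring
      _ ≤ (N : ℝ) ^ (σ / 4) * (N : ℝ) ^ (-(σ / 2)) := by gcongr
      _ = _ := by
          rw [← Real.rpow_add hNp]
          congr 1
          ring
  rw [h3] at h2
  linarith

end Pool.Agent.K7.H67.VDC
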