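import Pool.Agent.K7.H67.VDC.Diff
import Pool.Agent.K7.H67.CUB.Comp

/-!
# From exponential sums to the residue classes of integer parts (helper67)
-/

set_option autoImplicit false

namespace Pool.Agent.K7.H67.VDC

open Finset
open Pool.Agent.H807R2.Dav (ee ee_eq ee_add ee_int ee_pow ee_zero dd dd_neg dd_ge dd_add_int geo_bound KK_le' norm_ee)

/-- the geometric kernel -/
noncomputable def Ker (H : ℕ) (x : ℝ) : ℂ := ∑ j ∈ range H, ee (j * x)

lemma conj_ee (x : ℝ) : (starRingEnd ℂ) (ee x) = ee (-x) := by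
  rw [ee_eq, ee_eq, ← Complex.exp_conj]
  congr 1
  rw [map_mul, Complex.conj_ofReal, Complex.conj_I]
  push_cast
  ring

lemma dd_small {x : ℝ} (hx : |x| ≤ 1 / 2) : 4 * |x| ≤ dd x := by
  have h0 := abs_nonneg x
  have h1 := dd_ge h0 (by linarith)
  rw [min_eq_left (by linarith)] at h1
  rcases abs_choice x with h2 | h2
  · rw [h2] at h1 ⊢
    exact h1
  · rw [h2] at h1 ⊢
    rwa [dd_neg] at h1

lemma orth (H : ℕ) (m : ℤ) (hm : m ≠ 0) (hmH : |m| < H) : ∑ k ∈ range H, ee ((m : ℝ) * ((k : ℝ) / H)) = 0 := by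
  have hH : 0 < H := by
    have := abs_nonneg m
    omega
  have hHr : (0 : ℝ) < H := by exact_mod_cast hH
  have hne : ee ((m : ℝ) / H) ≠ 1 := by
    intro h
    have h1 : dd ((m : ℝ) / H) = 0 := by
      unfold dd
      rw [h, sub_self, norm_zero]
    have h2 : dd (|(m : ℝ) / H|) = 0 := by
      rcases abs_choice ((m : ℝ) / H) with h3 | h3
      · rw [h3, h1]
      · rw [h3, dd_neg, h1]
    have h3 : |(m : ℝ) / H| < 1 := by
      rw [abs_div, abs_of_pos hHr, div_lt_one hHr]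
      exact_mod_cast hmH
    have h4 : 0 < |(m : ℝ) / H| := by
      rw [abs_pos]
      have : (m : ℝ) ≠ 0 := by exact_mod_cast hm
      positivity
    have h5 := dd_ge h4.le h3.le
    rw [h2] at h5
    have h6 : 0 < min |(m : ℝ) / H| (1 - |(m : ℝ) / H|) := lt_min h4 (by linarith)
    linarith
  have h1 : ∀ k ∈ range H, ee ((m : ℝ) * ((k : ℝ) / H)) = ee ((m : ℝ) / H) ^ k := by
    intro k _
    rw [← ee_pow]
    congr 1
    ring
  rw [sum_congr rfl h1]
  have h2 := geom_sum_mul (ee ((m : ℝ) / H)) H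
  have h3 : ee ((m : ℝ) / H) ^ H = 1 := by
    rw [← ee_pow, mul_div_cancel₀ _ hHr.ne']
    exact ee_int m
  rw [h3, sub_self] at h2
  rcases mul_eq_zero.1 h2 with h4 | h4
  · exact h4
  · exact absurd (sub_eq_zero.1 h4) hne

lemma ker_sq (H : ℕ) (x : ℝ) : ((‖Ker H x‖ ^ 2 : ℝ) : ℂ) = ∑ i ∈ range H, ∑ j ∈ range H, ee ((((i : ℤ) - (j : ℤ) : ℤ) : ℝ) * x) := by
  have h1 : ((‖Ker H x‖ ^ 2 : ℝ) : ℂ) = Ker H x * (starRingEnd ℂ) (Ker H x) := by
    rw [Complex.mul_conj']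
    push_cast
    rfl
  rw [h1]
  unfold Ker
  rw [map_sum, sum_mul_sum]
  refine sum_congr rfl fun i _ => sum_congr rfl fun j _ => ?_
  rw [conj_ee, ← ee_add]
  congr 1
  push_cast
  ring

lemma parseval (H : ℕ) (y : ℝ) : ∑ k ∈ range H, ‖Ker H (y - k / H)‖ ^ 2 = (H : ℝ) ^ 2 := by
  have h1 : ((∑ k ∈ range H, ‖Ker H (y - k / H)‖ ^ 2 : ℝ) : ℂ) = (((H : ℝ) ^ 2 : ℝ) : ℂ) := by
    push_cast
    have h2 : ∀ k ∈ range H, ((‖Ker H (y - k / H)‖ : ℂ)) ^ 2 =
        ∑ i ∈ range H, ∑ j ∈ range H, ee ((((i : ℤ) - (j : ℤ) : ℤ) : ℝ) * (y - k / H)) := by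
      intro k _
      rw [← ker_sq]
      push_cast
      rfl
    rw [sum_congr rfl h2, sum_comm]
    have h3 : ∀ i ∈ range H, ∑ k ∈ range H, ∑ j ∈ range H, ee ((((i : ℤ) - (j : ℤ) : ℤ) : ℝ) * (y - k / H)) = H := by
      intro i hi
      rw [sum_comm]
      have h4 : ∀ j ∈ range H, ∑ k ∈ range H, ee ((((i : ℤ) - (j : ℤ) : ℤ) : ℝ) * (y - k / H)) = if j = i then (H : ℂ) else 0 := by
        intro j hj
        by_cases hij : j = i
        · rw [if_pos hij, hij]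
          simp [ee_zero]
        · rw [if_neg hij]
          have h5 : ∀ k ∈ range H, ee ((((i : ℤ) - (j : ℤ) : ℤ) : ℝ) * (y - k / H)) =
              ee ((((i : ℤ) - (j : ℤ) : ℤ) : ℝ) * y) * ee ((((j : ℤ) - (i : ℤ) : ℤ) : ℝ) * ((k : ℝ) / H)) := by
            intro k _
            rw [← ee_add]
            congr 1
            push_cast
            ring
          rw [sum_congr rfl h5, ← mul_sum, orth H _ (by omega) (by
            rw [mem_range] at hi hj
            rw [abs_lt]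
            constructor <;> omega), mul_zero]
      rw [sum_congr rfl h4, sum_ite_eq' (range H) i, if_pos hi]
    rw [sum_congr rfl h3, sum_const, card_range, nsmul_eq_mul]
    ring
  exact_mod_cast h1

lemma sum_ker {ι : Type} (T : Finset ι) (y : ι → ℝ) (ρ : ℝ) (H : ℕ)
    (h : ∀ m : ℕ, 1 ≤ m → m < H → ‖∑ i ∈ T, ee (m * y i)‖ ≤ T.card * ρ) (hρ : 0 ≤ ρ) (K : Finset ℕ) :
    ∑ i ∈ T, ∑ k ∈ K, ‖Ker H (y i - k / H)‖ ^ 2 ≤ K.card * (T.card * (H + H ^ 2 * ρ)) := by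
  classical
  have hT : (0 : ℝ) ≤ T.card := Nat.cast_nonneg _
  have hint : ∀ m : ℤ, |m| < H → ‖∑ i ∈ T, ee ((m : ℝ) * y i)‖ ≤ T.card * (if m = 0 then 1 else ρ) := by
    intro m hm
    by_cases h0 : m = 0
    · rw [if_pos h0, h0]
      simp [ee_zero]
    · rw [if_neg h0]
      obtain ⟨k, hk⟩ := Int.eq_nat_or_neg m
      rcases hk with hk | hk
      · rw [abs_lt] at hm
        have h1 := h k (by omega) (by omega)
        have h2 : (m : ℝ) = (k : ℝ) := by rw [hk]; push_cast; rfl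
        rw [h2]
        exact h1
      · rw [abs_lt] at hm
        have h1 := h k (by omega) (by omega)
        have h2 : (m : ℝ) = -(k : ℝ) := by rw [hk]; push_cast; rfl
        have h3 : ∑ i ∈ T, ee ((m : ℝ) * y i) = (starRingEnd ℂ) (∑ i ∈ T, ee ((k : ℝ) * y i)) := by
          rw [map_sum]
          refine sum_congr rfl fun i _ => ?_
          rw [conj_ee, h2]
          congr 1
          ring
        rw [h3, RCLike.norm_conj]
        exact h1
  have hk : ∀ k ∈ K, ∑ i ∈ T, ‖Ker H (y i - k / H)‖ ^ 2 ≤ T.card * (H + H ^ 2 * ρ) := by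
    intro k _
    have h1 : ((∑ i ∈ T, ‖Ker H (y i - k / H)‖ ^ 2 : ℝ) : ℂ) = ∑ a ∈ range H, ∑ b ∈ range H,
        ee (-((((a : ℤ) - (b : ℤ) : ℤ) : ℝ) * ((k : ℝ) / H))) * ∑ i ∈ T, ee ((((a : ℤ) - (b : ℤ) : ℤ) : ℝ) * y i) := by
      push_cast
      have h2 : ∀ i ∈ T, ((‖Ker H (y i - k / H)‖ : ℂ)) ^ 2 =
          ∑ a ∈ range H, ∑ b ∈ range H, ee ((((a : ℤ) - (b : ℤ) : ℤ) : ℝ) * (y i - k / H)) := by
        intro i _
        rw [← ker_sq]
        push_cast
        rfl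
      rw [sum_congr rfl h2, sum_comm]
      refine sum_congr rfl fun a _ => ?_
      rw [sum_comm]
      refine sum_congr rfl fun b _ => ?_
      rw [mul_sum]
      refine sum_congr rfl fun i _ => ?_
      rw [← ee_add]
      congr 1
      push_cast
      ring
    have h3 : (∑ i ∈ T, ‖Ker H (y i - k / H)‖ ^ 2 : ℝ) = ‖((∑ i ∈ T, ‖Ker H (y i - k / H)‖ ^ 2 : ℝ) : ℂ)‖ := by
      rw [Complex.norm_real, Real.norm_eq_abs, abs_of_nonneg (sum_nonneg fun _ _ => sq_nonneg _)]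
    rw [h3, h1]
    refine (norm_sum_le _ _).trans ?_
    have h4 : ∀ a ∈ range H, ‖∑ b ∈ range H, ee (-((((a : ℤ) - (b : ℤ) : ℤ) : ℝ) * ((k : ℝ) / H))) *
        ∑ i ∈ T, ee ((((a : ℤ) - (b : ℤ) : ℤ) : ℝ) * y i)‖ ≤ T.card * (1 + H * ρ) := by
      intro a ha
      rw [mem_range] at ha
      refine (norm_sum_le _ _).trans ?_
      have h5 : ∀ b ∈ range H, ‖ee (-((((a : ℤ) - (b : ℤ) : ℤ) : ℝ) * ((k : ℝ) / H))) *
          ∑ i ∈ T, ee ((((a : ℤ) - (b : ℤ) : ℤ) : ℝ) * y i)‖ ≤ (if b = a then (T.card : ℝ) else 0) + T.card * ρ := by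
        intro b hb
        rw [mem_range] at hb
        rw [norm_mul, norm_ee, one_mul]
        refine (hint ((a : ℤ) - (b : ℤ)) (by rw [abs_lt]; constructor <;> omega)).trans ?_
        have hTρ : 0 ≤ (T.card : ℝ) * ρ := mul_nonneg hT hρ
        by_cases hab : b = a
        · have e0 : (a : ℤ) - (b : ℤ) = 0 := by omega
          rw [if_pos e0, if_pos hab]
          linarith
        · have e0 : ¬ ((a : ℤ) - (b : ℤ) = 0) := by omega
          rw [if_neg e0, if_neg hab]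
          linarith
      refine (sum_le_sum h5).trans ?_
      rw [sum_add_distrib, sum_ite_eq', if_pos (mem_range.2 ha), sum_const, card_range, nsmul_eq_mul]
      linarith
    refine (sum_le_sum h4).trans ?_
    rw [sum_const, card_range, nsmul_eq_mul]
    linarith
  rw [sum_comm]
  refine (sum_le_sum hk).trans ?_
  rw [sum_const, nsmul_eq_mul]

/-- the window -/
noncomputable def Win (r M D H : ℕ) : Finset ℕ := (Icc ((r * M : ℤ) - D) (((r + 1) * M : ℤ) + D)).image (fun z : ℤ => (z % H).toNat)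

lemma card_win (r M D H : ℕ) : (Win r M D H).card ≤ M + 2 * D + 1 := by
  unfold Win
  refine card_image_le.trans ?_
  rw [Int.card_Icc]
  have : ((r + 1) * M : ℤ) = r * M + M := by ring
  rw [this]
  omega

lemma win_sub (r M D H : ℕ) (hH : 1 ≤ H) : Win r M D H ⊆ range H := by
  intro k hk
  unfold Win at hk
  rw [mem_image] at hk
  obtain ⟨z, -, rfl⟩ := hk
  rw [mem_range]
  have h1 := Int.emod_nonneg z (by omega : (H : ℤ) ≠ 0)
  have h2 := Int.emod_lt_of_pos z (by omega : (0 : ℤ) < H)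
  omega

/-- the kernel is small outside of the window -/
lemma ker_small {q M D H r : ℕ} (hq : 1 ≤ q) (hM : 1 ≤ M) (hD : 1 ≤ D) (hH : H = q * M) {x : ℝ}
    (hx1 : (r : ℝ) ≤ q * Int.fract x) (hx2 : q * Int.fract x < r + 1) {k : ℕ} (hk : k < H) (hkW : k ∉ Win r M D H) :
    ‖Ker H (x - k / H)‖ ≤ 3 * H / (4 * D) := by
  have hH1 : 1 ≤ H := by rw [hH]; exact Nat.mul_pos hq hM
  have hHp : (0 : ℝ) < H := by exact_mod_cast hH1
  have hDp : (0 : ℝ) < D := by exact_mod_cast hD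
  have hMp : (0 : ℝ) < M := by exact_mod_cast hM
  obtain ⟨n, hn⟩ : ∃ n, n = round (x - k / H) := ⟨_, rfl⟩
  obtain ⟨δ, hδ⟩ : ∃ δ : ℝ, δ = x - k / H - n := ⟨_, rfl⟩
  have hδ1 : |δ| ≤ 1 / 2 := by
    rw [hδ, hn]
    exact abs_sub_round _
  obtain ⟨z, hz⟩ : ∃ z : ℤ, z = k + n * H - H * ⌊x⌋ := ⟨_, rfl⟩
  have hzk : z % H = k := by
    rw [hz]
    have h1 : (k : ℤ) + n * H - H * ⌊x⌋ = k + (n - ⌊x⌋) * H := by ring
    rw [h1, Int.add_mul_emod_self_right, Int.emod_eq_of_lt (by omega) (by omega)]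
  have hzW : z ∉ Icc ((r * M : ℤ) - D) (((r + 1) * M : ℤ) + D) := by
    intro h
    apply hkW
    unfold Win
    rw [mem_image]
    refine ⟨z, h, ?_⟩
    rw [hzk, Int.toNat_natCast]
  have hdel : H * δ = H * Int.fract x - z := by
    rw [hδ, hz]
    have h1 : x = ⌊x⌋ + Int.fract x := (Int.floor_add_fract x).symm
    have h2 : (H : ℝ) * (x - k / H - n) = H * x - k - n * H := by
      field_simp
    rw [h2]
    conv_lhs => rw [h1]
    push_cast
    ring
  have hHM : (H : ℝ) = q * M := by rw [hH]; push_cast; ring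
  have h3 : (D : ℝ) ≤ |H * δ| := by
    rw [hdel, hHM]
    rw [mem_Icc, not_and_or, not_le, not_le] at hzW
    rcases hzW with h4 | h4
    · have h5 : (z : ℝ) < r * M - D := by exact_mod_cast h4
      refine le_trans ?_ (le_abs_self _)
      nlinarith
    · have h5 : ((r : ℝ) + 1) * M + D < z := by exact_mod_cast h4
      rw [abs_sub_comm]
      refine le_trans ?_ (le_abs_self _)
      nlinarith
  have h4 : (D : ℝ) / H ≤ |δ| := by
    rw [abs_mul, abs_of_pos hHp] at h3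
    rw [div_le_iff₀ hHp]
    linarith
  have h5 : 4 * ((D : ℝ) / H) ≤ dd (x - k / H) := by
    have h6 := dd_small hδ1
    have h7 : dd (x - k / H) = dd δ := by
      rw [hδ, ← dd_add_int (x - k / H - n) n]
      congr 1
      ring
    rw [h7]
    linarith
  have h6 : ‖Ker H (x - k / H)‖ ≤ Pool.Agent.H807R2.Dav.KK H (x - k / H) := by
    unfold Ker
    rw [range_eq_Ico]
    exact geo_bound 0 H (Nat.zero_le _) (by simp) _
  refine h6.trans ((KK_le' hHp.le (by positivity) h5).trans (le_of_eq ?_))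
  field_simp

/-- an upper bound for the number of the members in an arc -/
lemma arc_le {ι : Type} (T : Finset ι) (y : ι → ℝ) (ρ : ℝ) (hρ : 0 ≤ ρ) {q M D H : ℕ} (hq : 1 ≤ q) (hM : 1 ≤ M) (hD : 1 ≤ D)
    (hH : H = q * M) (h : ∀ m : ℕ, 1 ≤ m → m < H → ‖∑ i ∈ T, ee (m * y i)‖ ≤ T.card * ρ) (r : ℕ) (S : Finset ι) (hS : S ⊆ T)
    (hSr : ∀ i ∈ S, (r : ℝ) ≤ q * Int.fract (y i) ∧ q * Int.fract (y i) < r + 1) :
    (S.card : ℝ) * (1 - H / D ^ 2) ≤ T.card * ((M + 2 * D + 1) * (1 / H + ρ)) := by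
  classical
  have hH1 : 1 ≤ H := by rw [hH]; exact Nat.mul_pos hq hM
  have hHp : (0 : ℝ) < H := by exact_mod_cast hH1
  have hDp : (0 : ℝ) < D := by exact_mod_cast hD
  have h1 : ∀ i ∈ S, (H : ℝ) ^ 2 * (1 - H / D ^ 2) ≤ ∑ k ∈ Win r M D H, ‖Ker H (y i - k / H)‖ ^ 2 := by
    intro i hi
    have h2 := parseval H (y i)
    rw [← sum_sdiff (win_sub r M D H hH1)] at h2
    have h3 : ∑ k ∈ range H \ Win r M D H, ‖Ker H (y i - k / H)‖ ^ 2 ≤ ∑ _k ∈ range H \ Win r M D H, (3 * (H : ℝ) / (4 * D)) ^ 2 := by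
      apply sum_le_sum
      intro k hk
      rw [mem_sdiff, mem_range] at hk
      exact pow_le_pow_left₀ (norm_nonneg _) (ker_small hq hM hD hH (hSr i hi).1 (hSr i hi).2 hk.1 hk.2) 2
    have h4 : ∑ _k ∈ range H \ Win r M D H, (3 * (H : ℝ) / (4 * D)) ^ 2 ≤ H * (3 * (H : ℝ) / (4 * D)) ^ 2 := by
      rw [sum_const, nsmul_eq_mul]
      apply mul_le_mul_of_nonneg_right _ (by positivity)
      have : (range H \ Win r M D H).card ≤ H := (card_le_card sdiff_subset).trans (le_of_eq (card_range H))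
      exact_mod_cast this
    have h5 : (H : ℝ) * (3 * (H : ℝ) / (4 * D)) ^ 2 = (H : ℝ) ^ 2 * (H / D ^ 2) * (9 / 16) := by
      field_simp
      ring
    have h6 : 0 ≤ (H : ℝ) ^ 2 * (H / D ^ 2) := by positivity
    rw [h5] at h4
    have h7 : (H : ℝ) ^ 2 * (1 - H / D ^ 2) = H ^ 2 - (H : ℝ) ^ 2 * (H / D ^ 2) := by ring
    rw [h7]
    linarith
  have h2 : (S.card : ℝ) * ((H : ℝ) ^ 2 * (1 - H / D ^ 2)) ≤ (Win r M D H).card * (T.card * (H + H ^ 2 * ρ)) := by
    calc (S.card : ℝ) * ((H : ℝ) ^ 2 * (1 - H / D ^ 2)) = ∑ _i ∈ S, ((H : ℝ) ^ 2 * (1 - H / D ^ 2)) := by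
          rw [sum_const, nsmul_eq_mul]
      _ ≤ ∑ i ∈ S, ∑ k ∈ Win r M D H, ‖Ker H (y i - k / H)‖ ^ 2 := sum_le_sum h1
      _ ≤ ∑ i ∈ T, ∑ k ∈ Win r M D H, ‖Ker H (y i - k / H)‖ ^ 2 :=
          sum_le_sum_of_subset_of_nonneg hS (fun _ _ _ => sum_nonneg fun _ _ => sq_nonneg _)
      _ ≤ _ := sum_ker T y ρ H h hρ _
  have h3 : ((Win r M D H).card : ℝ) ≤ M + 2 * D + 1 := by exact_mod_cast card_win r M D H
  have h4 : (S.card : ℝ) * ((H : ℝ) ^ 2 * (1 - H / D ^ 2)) ≤ (M + 2 * D + 1) * (T.card * (H + H ^ 2 * ρ)) := by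
    refine h2.trans ?_
    apply mul_le_mul_of_nonneg_right h3
    positivity
  have h5 : (S.card : ℝ) * (1 - H / D ^ 2) = ((S.card : ℝ) * ((H : ℝ) ^ 2 * (1 - H / D ^ 2))) / H ^ 2 := by
    field_simp
  rw [h5, div_le_iff₀ (by positivity)]
  refine h4.trans (le_of_eq ?_)
  field_simp

/-- **Residue classes of integer parts.** -/
theorem equi_floor {ι : Type} (T : Finset ι) (y : ι → ℝ) (hy : ∀ i ∈ T, 0 ≤ y i) (X : ℕ) (hX : 16 ≤ X)
    (h : ∀ q : ℕ, 1 ≤ q → q ≤ X → ∀ m : ℕ, 1 ≤ m → m ≤ X ^ 9 → ‖∑ i ∈ T, ee (m * (y i / q))‖ ≤ T.card * (1 / (X : ℝ) ^ 11)) :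
    Pool.Agent.K7.H67.CUB.EquiD T (fun i => ⌊y i⌋₊) X := by
  classical
  have hXr : (16 : ℝ) ≤ X := by exact_mod_cast hX
  have hXp : (0 : ℝ) < X := by linarith
  -- the upper bound
  have hup : ∀ q : ℕ, 1 ≤ q → q ≤ X → ∀ r < q, ((T.filter (fun i => ⌊y i⌋₊ % q = r)).card : ℝ) ≤ T.card / q * (1 + 1 / X) := by
    intro q hq1 hqX r hr
    have hq0 : (0 : ℝ) < q := by exact_mod_cast hq1
    have hqr1 : (1 : ℝ) ≤ q := by exact_mod_cast hq1
    have hqXr : (q : ℝ) ≤ X := by exact_mod_cast hqX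
    have h1 := arc_le T (fun i => y i / q) (1 / (X : ℝ) ^ 11) (by positivity) (q := q) (M := X ^ 8) (D := X ^ 6) (H := q * X ^ 8) hq1
      (Nat.one_le_pow _ _ (by omega)) (Nat.one_le_pow _ _ (by omega)) rfl (by
        intro m hm1 hm2
        apply h q hq1 hqX m hm1
        calc m ≤ q * X ^ 8 := hm2.le
          _ ≤ X * X ^ 8 := Nat.mul_le_mul_right _ hqX
          _ = X ^ 9 := by ring) r (T.filter (fun i => ⌊y i⌋₊ % q = r)) (filter_subset _ _) (by
        intro i hi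
        rw [mem_filter] at hi
        have hyi := hy i hi.1
        obtain ⟨n, hn⟩ : ∃ n, n = ⌊y i⌋₊ := ⟨_, rfl⟩
        rw [← hn] at hi
        obtain ⟨s, hs⟩ : ∃ s, s = n / q := ⟨_, rfl⟩
        have hns : n = q * s + r := by
          rw [hs, ← hi.2]
          exact (Nat.div_add_mod _ _).symm
        have hn1 : (n : ℝ) ≤ y i := by rw [hn]; exact Nat.floor_le hyi
        have hn2 : y i < n + 1 := by rw [hn]; exact Nat.lt_floor_add_one _
        have hnr : (n : ℝ) = q * s + r := by exact_mod_cast hns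
        have hrq : (r : ℝ) + 1 ≤ q := by exact_mod_cast hr
        have hfl : ⌊y i / q⌋ = (s : ℤ) := by
          rw [Int.floor_eq_iff]
          push_cast
          constructor
          · rw [le_div_iff₀ hq0]
            nlinarith [(Nat.cast_nonneg r : (0 : ℝ) ≤ r)]
          · rw [div_lt_iff₀ hq0]
            nlinarith
        have hfr : (q : ℝ) * Int.fract (y i / q) = y i - q * s := by
          have h2 : Int.fract (y i / q) = y i / q - s := by
            rw [← Int.self_sub_floor, hfl]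
            push_cast
            rfl
          rw [h2, mul_sub, mul_div_cancel₀ _ hq0.ne']
        rw [hfr]
        constructor <;> linarith)
    push_cast at h1
    have hX11 : (X : ℝ) ≠ 0 := hXp.ne'
    -- the left side
    have e1 : (q : ℝ) * (X : ℝ) ^ 8 / ((X : ℝ) ^ 6) ^ 2 ≤ 1 / (X : ℝ) ^ 3 := by
      rw [div_le_div_iff₀ (by positivity) (by positivity)]
      calc (q : ℝ) * (X : ℝ) ^ 8 * (X : ℝ) ^ 3 ≤ X * (X : ℝ) ^ 8 * (X : ℝ) ^ 3 := by gcongr
        _ = 1 * ((X : ℝ) ^ 6) ^ 2 := by ring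
    obtain ⟨u, hu⟩ : ∃ u : ℝ, u = 1 / (X : ℝ) := ⟨_, rfl⟩
    have hu0 : 0 < u := by rw [hu]; positivity
    have hu1 : u ≤ 1 / 16 := by rw [hu]; exact one_div_le_one_div_of_le (by norm_num) hXr
    have e2 : ((X : ℝ) ^ 8 + 2 * (X : ℝ) ^ 6 + 1) * (1 / (q * (X : ℝ) ^ 8) + 1 / (X : ℝ) ^ 11) ≤
        1 / q * ((1 + 2 * u ^ 2 + u ^ 8) * (1 + u ^ 2)) := by
      have e3 : ((X : ℝ) ^ 8 + 2 * (X : ℝ) ^ 6 + 1) * (1 / (q * (X : ℝ) ^ 8) + 1 / (X : ℝ) ^ 11) =
          1 / q * ((1 + 2 * u ^ 2 + u ^ 8) * (1 + q * u ^ 3)) := by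
        rw [hu]
        field_simp
      rw [e3]
      have e4 : (q : ℝ) * u ^ 3 ≤ u ^ 2 := by
        have : (q : ℝ) * u ≤ 1 := by
          rw [hu, mul_one_div, div_le_one hXp]
          exact hqXr
        nlinarith [pow_pos hu0 2]
      gcongr
    have e5 : 1 / (X : ℝ) ^ 3 = u ^ 3 := by rw [hu]; ring
    rw [e5] at e1
    obtain ⟨c, hc⟩ : ∃ c : ℝ, c = ((T.filter (fun i => ⌊y i⌋₊ % q = r)).card : ℝ) := ⟨_, rfl⟩
    have hc0 : 0 ≤ c := by rw [hc]; positivity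
    rw [← hc] at h1 ⊢
    have hTq : 0 ≤ (T.card : ℝ) / q := by positivity
    have h2 : c * (1 - u ^ 3) ≤ T.card / q * ((1 + 2 * u ^ 2 + u ^ 8) * (1 + u ^ 2)) := by
      calc c * (1 - u ^ 3) ≤ c * (1 - (q : ℝ) * (X : ℝ) ^ 8 / ((X : ℝ) ^ 6) ^ 2) := by
            apply mul_le_mul_of_nonneg_left _ hc0
            linarith
        _ ≤ T.card * (((X : ℝ) ^ 8 + 2 * (X : ℝ) ^ 6 + 1) * (1 / (q * (X : ℝ) ^ 8) + 1 / (X : ℝ) ^ 11)) := h1
        _ ≤ T.card * (1 / q * ((1 + 2 * u ^ 2 + u ^ 8) * (1 + u ^ 2))) := mul_le_mul_of_nonneg_left e2 (Nat.cast_nonneg _)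
        _ = _ := by ring
    have h3 : (1 + 2 * u ^ 2 + u ^ 8) * (1 + u ^ 2) ≤ (1 + u) * (1 - u ^ 3) := by
      have h4 : u ^ 2 ≤ u / 16 := by nlinarith
      have h5 : u ^ 3 ≤ u / 256 := by nlinarith [pow_pos hu0 2]
      have h6 : u ^ 4 ≤ u / 256 := by nlinarith [pow_pos hu0 3]
      have h8 : u ^ 8 ≤ u / 256 := by
        calc u ^ 8 = u ^ 4 * u ^ 4 := by ring
          _ ≤ u ^ 4 * 1 := by
              apply mul_le_mul_of_nonneg_left _ (by positivity)
              exact pow_le_one₀ hu0.le (by linarith)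
          _ ≤ u / 256 := by linarith
      have h10 : u ^ 10 ≤ u / 256 := by
        calc u ^ 10 = u ^ 8 * u ^ 2 := by ring
          _ ≤ u ^ 8 * 1 := by
              apply mul_le_mul_of_nonneg_left _ (by positivity)
              exact pow_le_one₀ hu0.le (by linarith)
          _ ≤ u / 256 := by linarith
      have e6 : (1 + 2 * u ^ 2 + u ^ 8) * (1 + u ^ 2) = 1 + 3 * u ^ 2 + 2 * u ^ 4 + u ^ 8 + u ^ 10 := by ring
      have e7 : (1 + u) * (1 - u ^ 3) = 1 + u - u ^ 3 - u ^ 4 := by ring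
      rw [e6, e7]
      linarith
    have h7 : 0 < 1 - u ^ 3 := by
      have : u ^ 3 ≤ 1 / 16 := by
        calc u ^ 3 = u * u ^ 2 := by ring
          _ ≤ u * 1 := by
              apply mul_le_mul_of_nonneg_left _ hu0.le
              exact pow_le_one₀ hu0.le (by linarith)
          _ ≤ 1 / 16 := by linarith
      linarith
    have h8 : c * (1 - u ^ 3) ≤ (T.card / q * (1 + u)) * (1 - u ^ 3) := by
      refine h2.trans ?_
      rw [mul_assoc]
      exact mul_le_mul_of_nonneg_left h3 hTq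
    rw [← hu]
    exact le_of_mul_le_mul_right h8 h7
  intro q hq1 hqX r hr
  have hq0 : (0 : ℝ) < q := by exact_mod_cast hq1
  have hqr1 : (1 : ℝ) ≤ q := by exact_mod_cast hq1
  have hT0 : (0 : ℝ) ≤ T.card := Nat.cast_nonneg _
  rw [abs_le]
  constructor
  · -- the lower bound
    have h1 : T.card = ∑ s ∈ range q, (T.filter (fun i => ⌊y i⌋₊ % q = s)).card :=
      card_eq_sum_card_fiberwise (fun i _ => mem_coe.2 (mem_range.2 (Nat.mod_lt _ (by omega))))
    have h2 : (T.card : ℝ) = ∑ s ∈ range q, ((T.filter (fun i => ⌊y i⌋₊ % q = s)).card : ℝ) := by exact_mod_cast h1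
    rw [← add_sum_erase (range q) _ (mem_range.2 hr)] at h2
    have h3 : ∑ s ∈ (range q).erase r, ((T.filter (fun i => ⌊y i⌋₊ % q = s)).card : ℝ) ≤ ∑ _s ∈ (range q).erase r, (T.card / q * (1 + 1 / X) : ℝ) := by
      apply sum_le_sum
      intro s hs
      exact hup q hq1 hqX s (mem_range.1 (mem_erase.1 hs).2)
    rw [sum_const, card_erase_of_mem (mem_range.2 hr), card_range, nsmul_eq_mul, Nat.cast_sub hq1, Nat.cast_one] at h3
    have h4 : ((q : ℝ) - 1) * (T.card / q * (1 + 1 / X)) ≤ T.card - T.card / q + T.card / X := by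
      have e1 : ((q : ℝ) - 1) * (T.card / q * (1 + 1 / X)) = (T.card - T.card / q) + (T.card / X - T.card / q / X) := by
        field_simp
      rw [e1]
      have : 0 ≤ (T.card : ℝ) / q / X := by positivity
      linarith
    linarith
  · have h1 := hup q hq1 hqX r hr
    have h2 : (T.card : ℝ) / q * (1 + 1 / X) = T.card / q + T.card / q / X := by ring
    have h3 : (T.card : ℝ) / q / X ≤ T.card / X := by
      apply div_le_div_of_nonneg_right _ hXp.le
      exact div_le_self hT0 hqr1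
    linarith

end Pool.Agent.K7.H67.VDC
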